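import Pool.Agent.U220.RD.Main

/-! The dual variety of a reciprocal linear space is a hypersurface of degree
`2 ^ d * beta (L)` if the matroid is connected. -/

namespace Pool.Agent.Results.MP_0aec2a_ag.DegreeOfTheDual

open MvPolynomial

/-- Points of projective space are given by nonzero coordinate vectors. Zariski closure of a set
of points: the zeros of all homogeneous polynomials that vanish on the set. -/
def zariskiClosure {N : ℕ} (X : Set (Fin N → ℂ)) : Set (Fin N → ℂ) :=
  {y | y ≠ 0 ∧ ∀ (F : MvPolynomial (Fin N) ℂ) (k : ℕ), F.IsHomogeneous k →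
    (∀ x ∈ X, eval x F = 0) → eval y F = 0}

/-- The reciprocal linear space: the closure of the set of the points
`(1 / l 0 t : ... : 1 / l n t)`, where all `l i t` are nonzero. -/
def reciprocal {n d : ℕ} (l : Fin (n + 1) → Module.Dual ℂ (Fin (d + 1) → ℂ)) :
    Set (Fin (n + 1) → ℂ) :=
  zariskiClosure {y | ∃ t : Fin (d + 1) → ℂ, (∀ i, l i t ≠ 0) ∧ y = fun i => (l i t)⁻¹}

/-- The tangent space at `x` of the cone over `X`: the vectors killed by the differentials
at `x` of all homogeneous polynomials that vanish on `X`. -/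
def tangentSpace {N : ℕ} (X : Set (Fin N → ℂ)) (x : Fin N → ℂ) : Submodule ℂ (Fin N → ℂ) where
  carrier := {v | ∀ (F : MvPolynomial (Fin N) ℂ) (k : ℕ), F.IsHomogeneous k →
    (∀ y ∈ X, eval y F = 0) → ∑ i, eval x (pderiv i F) * v i = 0}
  add_mem' := by
    intro v w hv hw F k hF hX
    have h1 := hv F k hF hX
    have h2 := hw F k hF hX
    simp only [Pi.add_apply, mul_add, Finset.sum_add_distrib, h1, h2, add_zero]
  zero_mem' := by
    intro F k hF hX
    simp
  smul_mem' := by
    intro c v hv F k hF hX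
    have h1 := hv F k hF hX
    have h2 : ∑ i, eval x (pderiv i F) * (c • v) i = c * ∑ i, eval x (pderiv i F) * v i := by
      rw [Finset.mul_sum]
      refine Finset.sum_congr rfl fun i _ => ?_
      simp only [Pi.smul_apply, smul_eq_mul]
      ring
    rw [h2, h1, mul_zero]

/-- Smooth points of an irreducible projective variety: the points at which the tangent space
has the smallest possible dimension (the Jacobian matrix has the largest possible rank). -/
def IsSmoothPoint {N : ℕ} (X : Set (Fin N → ℂ)) (x : Fin N → ℂ) : Prop :=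
  x ∈ X ∧ ∀ y ∈ X, Module.finrank ℂ (tangentSpace X x) ≤ Module.finrank ℂ (tangentSpace X y)

/-- The dual variety: the closure of the set of the hyperplanes `∑ u i * v i = 0` that contain
the tangent space of `X` at some smooth point. -/
def dualVariety {N : ℕ} (X : Set (Fin N → ℂ)) : Set (Fin N → ℂ) :=
  zariskiClosure {u | u ≠ 0 ∧ ∃ x, IsSmoothPoint X x ∧ ∀ v ∈ tangentSpace X x,
    ∑ i, u i * v i = 0}

/-- The rank function of the matroid of the linear forms `l i`. -/
noncomputable def rank {n d : ℕ} (l : Fin (n + 1) → Module.Dual ℂ (Fin (d + 1) → ℂ))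
    (S : Finset (Fin (n + 1))) : ℕ :=
  Module.finrank ℂ (Submodule.span ℂ (l '' (S : Set (Fin (n + 1)))))

/-- The matroid is connected: no separation `S`, `Sᶜ` into nonempty sets whose ranks add up. -/
def IsConnected {n d : ℕ} (l : Fin (n + 1) → Module.Dual ℂ (Fin (d + 1) → ℂ)) : Prop :=
  ∀ S : Finset (Fin (n + 1)), S.Nonempty → Sᶜ.Nonempty →
    rank l Finset.univ < rank l S + rank l Sᶜ

/-- The beta invariant. -/
noncomputable def beta {n d : ℕ} (l : Fin (n + 1) → Module.Dual ℂ (Fin (d + 1) → ℂ)) : ℤ :=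
  (-1) ^ rank l Finset.univ * ∑ S : Finset (Fin (n + 1)), (-1) ^ S.card * (rank l S : ℤ)

section conversion

variable {n d : ℕ} (l : Fin (n + 1) → Module.Dual ℂ (Fin (d + 1) → ℂ))

/-- coefficient vectors -/
noncomputable def coeffs (i : Fin (n + 1)) : Fin (d + 1) → ℂ :=
  LinearEquiv.piRing ℂ ℂ (Fin (d + 1)) ℂ (l i)

lemma form_coeffs (i : Fin (n + 1)) (t : Fin (d + 1) → ℂ) :
    Pool.Agent.U220.RD.form (coeffs l i) t = l i t := by
  have h : l i = (LinearEquiv.piRing ℂ ℂ (Fin (d + 1)) ℂ).symm (coeffs l i) := by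
    rw [coeffs, LinearEquiv.symm_apply_apply]
  conv_rhs => rw [h, LinearEquiv.piRing_symm_apply]
  rw [Pool.Agent.U220.RD.form]
  refine Finset.sum_congr rfl fun j _ => ?_
  rw [smul_eq_mul, mul_comm]

lemma rk_coeffs (S : Finset (Fin (n + 1))) :
    Pool.Agent.U220.RD.rk (coeffs l) S = rank l S := by
  have h : coeffs l '' (S : Set (Fin (n + 1))) =
      (LinearEquiv.piRing ℂ ℂ (Fin (d + 1)) ℂ) '' (l '' (S : Set (Fin (n + 1)))) := by
    rw [Set.image_image]
    rfl
  rw [Pool.Agent.U220.RD.rk, h, rank]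
  have h2 := Submodule.map_span
    (LinearEquiv.piRing ℂ ℂ (Fin (d + 1)) ℂ).toLinearMap (l '' (S : Set (Fin (n + 1))))
  have h3 : Submodule.span ℂ ((LinearEquiv.piRing ℂ ℂ (Fin (d + 1)) ℂ) ''
      (l '' (S : Set (Fin (n + 1))))) = (Submodule.span ℂ (l '' (S : Set (Fin (n + 1))))).map
        (LinearEquiv.piRing ℂ ℂ (Fin (d + 1)) ℂ).toLinearMap := h2.symm
  rw [h3]
  exact LinearEquiv.finrank_map_eq _ _

end conversion

/-- For all linear forms `l 0, ..., l n` on `ℂ ^ (d + 1)` which span the dual space and have a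
connected matroid, the dual variety of the reciprocal linear space is the hypersurface `F = 0`
for an irreducible homogeneous polynomial `F` of degree `2 ^ d * beta l > 0`. -/
theorem result : ∀ (n d : ℕ) (l : Fin (n + 1) → Module.Dual ℂ (Fin (d + 1) → ℂ)),
    Submodule.span ℂ (Set.range l) = ⊤ → IsConnected l →
    ∃ (F : MvPolynomial (Fin (n + 1)) ℂ) (D : ℕ), Irreducible F ∧ F.IsHomogeneous D ∧
      0 < D ∧ (D : ℤ) = 2 ^ d * beta l ∧
      dualVariety (reciprocal l) = {u | u ≠ 0 ∧ eval u F = 0} := by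
  intro n d l hsp hc
  have hl0 : ∀ i, l i ≠ 0 := by
    intro i hi
    by_cases hn : (({i} : Finset (Fin (n + 1)))ᶜ).Nonempty
    · have h1 := hc {i} (Finset.singleton_nonempty i) hn
      have h2 : rank l {i} = 0 := by
        rw [rank, Finset.coe_singleton, Set.image_singleton, hi, Submodule.span_zero_singleton,
          finrank_bot]
      have h3 : rank l ({i} : Finset (Fin (n + 1)))ᶜ ≤ rank l Finset.univ := by
        rw [rank, rank]
        refine Submodule.finrank_mono (Submodule.span_mono (Set.image_mono ?_))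
        intro x _
        simp
      omega
    · have h1 : ∀ j, j = i := by
        intro j
        by_contra hj
        exact hn ⟨j, by simpa using hj⟩
      have h2 : Submodule.span ℂ (Set.range l) = ⊥ := by
        rw [Submodule.span_eq_bot]
        rintro x ⟨j, rfl⟩
        rw [h1 j, hi]
      rw [hsp] at h2
      have h3 : Module.finrank ℂ (Module.Dual ℂ (Fin (d + 1) → ℂ)) = d + 1 := by
        rw [Subspace.dual_finrank_eq, Module.finrank_fin_fun]
      have h4 := finrank_top ℂ (Module.Dual ℂ (Fin (d + 1) → ℂ))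
      rw [h2, finrank_bot, h3] at h4
      omega
  have hc0 : ∀ i, coeffs l i ≠ 0 := by
    intro i hi
    apply hl0 i
    rw [coeffs] at hi
    exact (LinearEquiv.map_eq_zero_iff _).1 hi
  have hcsp : Submodule.span ℂ (Set.range (coeffs l)) = ⊤ := by
    have h1 : Set.range (coeffs l) =
        (LinearEquiv.piRing ℂ ℂ (Fin (d + 1)) ℂ).toLinearMap '' Set.range l := by
      rw [← Set.range_comp]
      rfl
    rw [h1, ← Submodule.map_span, hsp, Submodule.map_top, LinearMap.range_eq_top]
    exact (LinearEquiv.piRing ℂ ℂ (Fin (d + 1)) ℂ).surjective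
  have hconn : Pool.Agent.U220.RD.Conn (coeffs l) Finset.univ := by
    intro T _ h1 h2
    rw [rk_coeffs, rk_coeffs, rk_coeffs, ← Finset.compl_eq_univ_sdiff]
    exact hc T h1 (by rwa [Finset.compl_eq_univ_sdiff])
  obtain ⟨F, D, h1, h2, h3, h4, h5⟩ :=
    Pool.Agent.U220.RD.main (n + 1) (d + 1) (coeffs l) hcsp hc0 (Nat.succ_pos n) hconn
  have hβ : Pool.Agent.U220.RD.beta (coeffs l) Finset.univ = beta l := by
    rw [Pool.Agent.U220.RD.beta, beta, rk_coeffs, Finset.powerset_univ]
    congr 1
    refine Finset.sum_congr rfl fun S _ => ?_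
    rw [rk_coeffs]
  rw [hβ] at h3 h4
  have hD : (D : ℤ) = 2 ^ d * beta l := by
    have : (D : ℤ) * 2 = (2 ^ d * beta l) * 2 := by
      rw [h3]; ring
    exact mul_right_cancel₀ two_ne_zero this
  have hDpos : 0 < D := by
    have : (0 : ℤ) < D := by
      rw [hD]
      positivity
    exact_mod_cast this
  have hrec : reciprocal l = Pool.Agent.U220.RD.reciprocal (coeffs l) := by
    rw [reciprocal, Pool.Agent.U220.RD.reciprocal]
    simp only [form_coeffs]
    rfl
  refine ⟨F, D, h1, h2, hDpos, hD, ?_⟩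
  rw [hrec]
  exact h5

end Pool.Agent.Results.MP_0aec2a_ag.DegreeOfTheDual
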